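import Pool.Agent.H53.DfQ

/-! Circle map sequences: the Kesten condition is not necessary for diffraction. -/

namespace Pool.Agent.Results.MP_23b0f8_an.Q1False

open MeasureTheory Set H53.Df Pool.Agent.H53.DfQ

theorem result (D γ x0 : ℝ) (hD0 : 0 < D) (hD1 : D < 1) (hγ : Irrational γ)
    (hq : ∃ q : ℚ, D = q) :
    ¬ Kesten D γ ∧ (∃ p, IsStair D γ x0 p) ∧
    ∀ p, IsStair D γ x0 p →
      (∃ η ω, IsAutocorr (proj D '' range p) η ∧ IsFT η ω) ∧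
      ∀ η ω, IsAutocorr (proj D '' range p) η → IsFT η ω →
        {s | ω {s} ≠ 0}.Infinite ∧ {s | ω {s} ≠ 0}.Countable := by
  obtain ⟨h1, h2, h3⟩ := main D γ x0 hD0 hD1 hγ
  exact ⟨h3 hq, h1, fun p hp => ⟨(h2 p hp).1, (h2 p hp).2 (Or.inr hq)⟩⟩

end Pool.Agent.Results.MP_23b0f8_an.Q1False
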